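import Pool.Agent.H305R3.Rot.Near
import Pool.Agent.H305R3.Rot.Defs

/-!
# Compact spaces of pair orbits: finitely many orbits of near-stabilizers are dense
-/

set_option autoImplicit false
set_option linter.unusedSectionVars false

namespace Pool.TH578.Rot

open Pool.H305R3.Rot Filter Topology

/-- up to every `ε` there are only finitely many pairs of unit vectors modulo isometries, in other
words the orbit space of pairs of unit vectors is totally bounded -/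
def PairCompact (E : Type) [NormedAddCommGroup E] [NormedSpace ℝ E] : Prop :=
  ∀ ε : ℝ, 0 < ε → ∃ P : Finset (E × E), ∀ x z : E, ‖x‖ = 1 → ‖z‖ = 1 →
    ∃ p ∈ P, ∃ T : E ≃ₗᵢ[ℝ] E, ‖T x - p.1‖ ≤ ε ∧ ‖T z - p.2‖ ≤ ε

variable {E : Type} [NormedAddCommGroup E] [NormedSpace ℝ E]

/-- an isometry moving `x` by at most `ε` sends `z` to a vector at distance at most `ε` from `w` -/
def Rl (x : E) (ε : ℝ) (z w : E) : Prop :=
  ∃ T : E ≃ₗᵢ[ℝ] E, ‖T x - x‖ ≤ ε ∧ ‖T z - w‖ ≤ ε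

lemma Rl.symm {x : E} {ε : ℝ} {z w : E} (h : Rl x ε z w) : Rl x ε w z := by
  obtain ⟨T, h1, h2⟩ := h
  refine ⟨T.symm, ?_, ?_⟩
  · have : T.symm x - x = T.symm (x - T x) := by rw [map_sub, T.symm_apply_apply]
    rw [this, T.symm.norm_map, norm_sub_rev]; exact h1
  · have : T.symm w - z = T.symm (w - T z) := by rw [map_sub, T.symm_apply_apply]
    rw [this, T.symm.norm_map, norm_sub_rev]; exact h2

lemma Rl.trans {x : E} {ε δ : ℝ} {z w v : E} (h : Rl x ε z w) (h' : Rl x δ w v) :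
    Rl x (ε + δ) z v := by
  obtain ⟨T, h1, h2⟩ := h
  obtain ⟨S, h3, h4⟩ := h'
  refine ⟨T.trans S, ?_, ?_⟩
  · rw [LinearIsometryEquiv.trans_apply]
    have : S (T x) - x = S (T x - x) + (S x - x) := by rw [map_sub]; abel
    rw [this]
    refine (norm_add_le _ _).trans ?_
    rw [S.norm_map]; linarith
  · rw [LinearIsometryEquiv.trans_apply]
    have : S (T z) - v = S (T z - w) + (S w - v) := by rw [map_sub]; abel
    rw [this]
    refine (norm_add_le _ _).trans ?_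
    rw [S.norm_map]; linarith

lemma Rl.mono {x : E} {ε δ : ℝ} {z w : E} (h : Rl x ε z w) (hh : ε ≤ δ) : Rl x δ z w := by
  obtain ⟨T, h1, h2⟩ := h
  exact ⟨T, h1.trans hh, h2.trans hh⟩

lemma totally (hP : PairCompact E) (x : E) (hx : ‖x‖ = 1) {ε : ℝ} (hε : 0 < ε) :
    ∃ F : Finset E, (∀ f ∈ F, ‖f‖ = 1) ∧ ∀ z : E, ‖z‖ = 1 → ∃ f ∈ F, Rl x ε z f := by
  classical
  obtain ⟨P, hP⟩ := hP (ε / 2) (by positivity)
  have key : ∀ p : E × E, ∃ f : E, ‖f‖ = 1 ∧ ∀ z : E, ‖z‖ = 1 →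
      (∃ T : E ≃ₗᵢ[ℝ] E, ‖T x - p.1‖ ≤ ε / 2 ∧ ‖T z - p.2‖ ≤ ε / 2) → Rl x ε z f := by
    intro p
    by_cases h : ∃ f : E, ‖f‖ = 1 ∧
        ∃ T : E ≃ₗᵢ[ℝ] E, ‖T x - p.1‖ ≤ ε / 2 ∧ ‖T f - p.2‖ ≤ ε / 2
    · obtain ⟨f, hf, S, hS1, hS2⟩ := h
      refine ⟨f, hf, fun z hz ⟨T, hT1, hT2⟩ => ⟨T.trans S.symm, ?_, ?_⟩⟩
      · rw [LinearIsometryEquiv.trans_apply]
        have : S.symm (T x) - x = S.symm ((T x - p.1) - (S x - p.1)) := by
          rw [sub_sub_sub_cancel_right, map_sub, S.symm_apply_apply]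
        rw [this, S.symm.norm_map]
        refine (norm_sub_le _ _).trans ?_
        linarith
      · rw [LinearIsometryEquiv.trans_apply]
        have : S.symm (T z) - f = S.symm ((T z - p.2) - (S f - p.2)) := by
          rw [sub_sub_sub_cancel_right, map_sub, S.symm_apply_apply]
        rw [this, S.symm.norm_map]
        refine (norm_sub_le _ _).trans ?_
        linarith
    · refine ⟨x, hx, fun z hz ⟨T, hT1, hT2⟩ => absurd ⟨z, hz, T, hT1, hT2⟩ h⟩
  choose g hg1 hg2 using key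
  refine ⟨P.image g, fun f hf => ?_, fun z hz => ?_⟩
  · obtain ⟨p, -, rfl⟩ := Finset.mem_image.1 hf
    exact hg1 p
  · obtain ⟨p, hp, T, hT⟩ := hP x z hx hz
    exact ⟨g p, Finset.mem_image_of_mem g hp, hg2 p z hz ⟨T, hT⟩⟩

/-- if the pair orbits form a totally bounded space, then for every unit vector `x` and `κ > 0`
the orbits of finitely many unit vectors under arbitrarily small near-stabilizers of `x` are
`κ`-dense in the unit sphere -/
theorem cover [CompleteSpace E] [TopologicalSpace.SeparableSpace E]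
    (htr : ∀ x y : E, ‖x‖ = 1 → ‖y‖ = 1 → ∃ T : E ≃ₗᵢ[ℝ] E, T x = y)
    (hP : PairCompact E) (x : E) (hx : ‖x‖ = 1) {κ : ℝ} (hκ : 0 < κ) :
    ∃ F : Finset E, (∀ e ∈ F, ‖e‖ = 1) ∧ ∀ η : ℝ, 0 < η → ∀ z : E, ‖z‖ = 1 →
      ∃ e ∈ F, ∃ T : E ≃ₗᵢ[ℝ] E, ‖T x - x‖ ≤ η ∧ ‖T e - z‖ ≤ κ := by
  classical
  -- the radius attached to `e`
  have key : ∀ e : E, ∃ ρ : ℝ, 0 < ρ ∧ ∀ z : E, Rl x ρ z e → ∀ η : ℝ, 0 < η →
      ∃ T : E ≃ₗᵢ[ℝ] E, ‖T x - x‖ ≤ η ∧ ‖T e - z‖ ≤ κ := by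
    intro e
    obtain ⟨t, ht, hopen⟩ := near_open htr (fun _ : Unit => e) x hx (κ := κ / 2) (by positivity)
    refine ⟨min (κ / 2) t, lt_min (by positivity) ht, ?_⟩
    rintro z ⟨T, hT1, hT2⟩ η hη
    obtain ⟨S, hS1, hS2⟩ := hopen (T x) (by rw [T.norm_map, hx]) (hT1.trans (min_le_right _ _)) η hη
    refine ⟨S.trans T.symm, ?_, ?_⟩
    · rw [LinearIsometryEquiv.trans_apply]
      have : T.symm (S x) - x = T.symm (S x - T x) := by rw [map_sub, T.symm_apply_apply]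
      rw [this, T.symm.norm_map]; exact hS1
    · rw [LinearIsometryEquiv.trans_apply]
      have : T.symm (S e) - z = T.symm ((S e - e) - (T z - e)) := by
        rw [sub_sub_sub_cancel_right, map_sub, T.symm_apply_apply]
      rw [this, T.symm.norm_map]
      refine (norm_sub_le _ _).trans ?_
      have h1 := hS2 ()
      have h2 := hT2.trans (min_le_left (κ / 2) t)
      linarith
  choose ρ hρ0 hρ using key
  by_contra hcon
  -- no finite set covers
  have hno : ∀ F : Finset E, (∀ e ∈ F, ‖e‖ = 1) → ∃ z : E, ‖z‖ = 1 ∧ ∀ e ∈ F, ¬ Rl x (ρ e) z e := by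
    intro F hF
    by_contra h
    push Not at h
    apply hcon
    refine ⟨F, hF, fun η hη z hz => ?_⟩
    obtain ⟨e, he, hR⟩ := h z hz
    exact ⟨e, he, hρ e z hR η hη⟩
  let S := {z : E // ‖z‖ = 1}
  let U : S → Set S := fun e => {z | ¬ Rl x (ρ e) (z : E) (e : E)}
  have hne : (Filter.generate (Set.range U)).NeBot := by
    rw [Filter.generate_neBot_iff]
    intro t ht htf
    have : ∃ F : Finset S, t ⊆ U '' (F : Set S) := by
      obtain ⟨s', hs1, hs2⟩ := (Set.exists_subset_image_finite_and (f := U) (s := Set.univ)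
        (p := fun t' => t ⊆ t')).1 ⟨t, by rw [Set.image_univ]; exact ht, htf, le_refl _⟩
      exact ⟨hs2.1.toFinset, by simpa using hs2.2⟩
    obtain ⟨F, hF⟩ := this
    obtain ⟨z, hz, hz2⟩ := hno (F.image (fun e : S => (e : E))) (by
      intro e he
      obtain ⟨e', -, rfl⟩ := Finset.mem_image.1 he
      exact e'.2)
    refine ⟨⟨z, hz⟩, ?_⟩
    rw [Set.mem_sInter]
    intro A hA
    obtain ⟨e, he, rfl⟩ := hF hA
    exact hz2 (e : E) (Finset.mem_image_of_mem _ (by simpa using he))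
  let 𝓤 : Ultrafilter S := @Ultrafilter.of _ (Filter.generate (Set.range U)) hne
  have hUmem : ∀ e : S, U e ∈ 𝓤 := by
    intro e
    have h1 : U e ∈ Filter.generate (Set.range U) :=
      Filter.mem_generate_of_mem (Set.mem_range_self e)
    exact (@Ultrafilter.of_le _ (Filter.generate (Set.range U)) hne) h1
  -- small balls in the ultrafilter
  have hball : ∀ k : ℕ, ∃ f : E, ‖f‖ = 1 ∧ {z : S | Rl x ((1 / 2) ^ k) (z : E) f} ∈ 𝓤 := by
    intro k
    obtain ⟨F, hF1, hF2⟩ := totally hP x hx (ε := (1 / 2) ^ k) (by positivity)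
    have h1 : (⋃ f ∈ (F : Set E), {z : S | Rl x ((1 / 2) ^ k) (z : E) f}) ∈ 𝓤 := by
      have : (⋃ f ∈ (F : Set E), {z : S | Rl x ((1 / 2) ^ k) (z : E) f}) = Set.univ := by
        rw [Set.eq_univ_iff_forall]
        intro z
        obtain ⟨f, hf, hR⟩ := hF2 (z : E) z.2
        exact Set.mem_biUnion (by simpa using hf) hR
      rw [this]
      exact Filter.univ_mem
    obtain ⟨f, hf, h2⟩ := (Ultrafilter.finite_biUnion_mem_iff F.finite_toSet).1 h1
    exact ⟨f, hF1 f (by simpa using hf), h2⟩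
  choose f hf1 hf2 using hball
  have hstep : ∀ k : ℕ, ∃ T : E ≃ₗᵢ[ℝ] E, ‖T x - x‖ ≤ 2 * (1 / 2) ^ k ∧
      ‖T (f k) - f (k + 1)‖ ≤ 2 * (1 / 2) ^ k := by
    intro k
    obtain ⟨z, hz1, hz2⟩ := Filter.nonempty_of_mem (Filter.inter_mem (hf2 k) (hf2 (k + 1)))
    have h := Rl.trans (Rl.symm hz1) hz2
    obtain ⟨T, h1, h2⟩ := h.mono (δ := 2 * (1 / 2) ^ k) (by
      have : ((1 : ℝ) / 2) ^ (k + 1) ≤ (1 / 2) ^ k :=
        pow_le_pow_of_le_one (by norm_num) (by norm_num) (Nat.le_succ k)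
      linarith)
    exact ⟨T, h1, h2⟩
  choose T hT1 hT2 using hstep
  let P : ℕ → (E ≃ₗᵢ[ℝ] E) := fun n =>
    Nat.rec (LinearIsometryEquiv.refl ℝ E) (fun k Q => Q.trans (T k)) n
  have hPs : ∀ k, P (k + 1) = (P k).trans (T k) := fun k => rfl
  let w : ℕ → E := fun k => (P k).symm (f k)
  let y : ℕ → E := fun k => (P k).symm x
  have hw : CauchySeq w := by
    refine cauchySeq_of_le_geometric (1 / 2) 2 (by norm_num) (fun k => ?_)
    have h1 : w (k + 1) = (P k).symm ((T k).symm (f (k + 1))) := by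
      show (P (k + 1)).symm (f (k + 1)) = _
      rw [hPs]; rfl
    have h2 : w k - w (k + 1) = (P k).symm ((T k).symm ((T k) (f k) - f (k + 1))) := by
      rw [h1, map_sub, map_sub, (T k).symm_apply_apply]
    rw [dist_eq_norm, h2, LinearIsometryEquiv.norm_map, LinearIsometryEquiv.norm_map]
    exact hT2 k
  have hy : CauchySeq y := by
    refine cauchySeq_of_le_geometric (1 / 2) 2 (by norm_num) (fun k => ?_)
    have h1 : y (k + 1) = (P k).symm ((T k).symm x) := by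
      show (P (k + 1)).symm x = _
      rw [hPs]; rfl
    have h2 : y k - y (k + 1) = (P k).symm ((T k).symm ((T k) x - x)) := by
      rw [h1, map_sub, map_sub, (T k).symm_apply_apply]
    rw [dist_eq_norm, h2, LinearIsometryEquiv.norm_map, LinearIsometryEquiv.norm_map]
    exact hT1 k
  obtain ⟨w0, hw0⟩ := cauchySeq_tendsto_of_complete hw
  obtain ⟨y0, hy0⟩ := cauchySeq_tendsto_of_complete hy
  have hw1 : ‖w0‖ = 1 := by
    refine tendsto_nhds_unique hw0.norm ?_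
    have : (fun k => ‖w k‖) = fun _ => (1 : ℝ) := by
      funext k
      show ‖(P k).symm (f k)‖ = 1
      rw [LinearIsometryEquiv.norm_map, hf1]
    rw [this]
    exact tendsto_const_nhds
  have hy1 : ‖y0‖ = 1 := by
    refine tendsto_nhds_unique hy0.norm ?_
    have : (fun k => ‖y k‖) = fun _ => (1 : ℝ) := by
      funext k
      show ‖(P k).symm x‖ = 1
      rw [LinearIsometryEquiv.norm_map, hx]
    rw [this]
    exact tendsto_const_nhds
  obtain ⟨Q, hQ⟩ := htr y0 x hy1 hx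
  let e : S := ⟨Q w0, by rw [Q.norm_map, hw1]⟩
  -- choose `k`
  have hρe : 0 < ρ (Q w0) := hρ0 _
  have h1 : ∀ᶠ k in atTop, ‖w k - w0‖ < ρ (Q w0) / 2 := by
    have := (tendsto_iff_norm_sub_tendsto_zero.1 hw0)
    exact this.eventually (gt_mem_nhds (by positivity))
  have h2 : ∀ᶠ k in atTop, ‖y k - y0‖ < ρ (Q w0) / 2 := by
    have := (tendsto_iff_norm_sub_tendsto_zero.1 hy0)
    exact this.eventually (gt_mem_nhds (by positivity))
  have h3 : ∀ᶠ k : ℕ in atTop, ((1 : ℝ) / 2) ^ k < ρ (Q w0) / 2 := by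
    have := tendsto_pow_atTop_nhds_zero_of_lt_one (r := (1 : ℝ) / 2) (by norm_num) (by norm_num)
    exact this.eventually (gt_mem_nhds (by positivity))
  obtain ⟨k, hk1, hk2, hk3⟩ := (h1.and (h2.and h3)).exists
  have hR : Rl x (ρ (Q w0) / 2) (f k) (Q w0) := by
    refine ⟨(P k).symm.trans Q, ?_, ?_⟩
    · rw [LinearIsometryEquiv.trans_apply]
      have : Q ((P k).symm x) - x = Q (y k - y0) := by
        show Q (y k) - x = _
        rw [map_sub, hQ]
      rw [this, Q.norm_map]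
      exact hk2.le
    · rw [LinearIsometryEquiv.trans_apply]
      have : Q ((P k).symm (f k)) - Q w0 = Q (w k - w0) := by
        show Q (w k) - Q w0 = _
        rw [map_sub]
      rw [this, Q.norm_map]
      exact hk1.le
  have h4 : {z : S | Rl x ((1 / 2) ^ k) (z : E) (f k)} ⊆ (U e)ᶜ := by
    intro z hz
    simp only [U, e, Set.mem_compl_iff, Set.mem_ofPred_eq, not_not]
    exact (Rl.trans hz hR).mono (by linarith)
  have h5 : (U e)ᶜ ∈ 𝓤 := Filter.mem_of_superset (hf2 k) h4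
  have h6 := Filter.inter_mem (hUmem e) h5
  rw [Set.inter_compl_self] at h6
  exact 𝓤.empty_notMem h6

/-- no null orbits in the dual -/
lemma not_nullDual {x : E} (F : Finset E)
    (hF : ∀ η : ℝ, 0 < η → ∀ z : E, ‖z‖ = 1 →
      ∃ e ∈ F, ∃ T : E ≃ₗᵢ[ℝ] E, ‖T x - x‖ ≤ η ∧ ‖T e - z‖ ≤ 1 / 2) : ¬ NullDual E x := by
  rintro ⟨ψ, η, hψ, hη, hnull⟩
  have h1 : ∀ e : E, ∃ N : ℕ, ∀ n : ℕ, N ≤ n → ∀ T : E ≃ₗᵢ[ℝ] E,
      ‖T x - x‖ ≤ η n → |ψ n (T e)| ≤ 1 / 8 := fun e => hnull e (1 / 8) (by norm_num)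
  choose N hN using h1
  let n := F.sup N
  obtain ⟨z, hz, hz2⟩ : ∃ z : E, ‖z‖ = 1 ∧ 3 / 4 < ‖ψ n z‖ := by
    by_contra h
    push Not at h
    have := ContinuousLinearMap.opNorm_le_of_unit_norm (f := ψ n) (C := 3 / 4) (by norm_num) h
    rw [hψ n] at this
    norm_num at this
  obtain ⟨e, he, T, hT1, hT2⟩ := hF (η n) (hη n) z hz
  have h2 := hN e n (Finset.le_sup he) T hT1
  have h3 : ‖ψ n (T e - z)‖ ≤ 1 / 2 := by
    refine ((ψ n).le_opNorm _).trans ?_
    rw [hψ n, one_mul]; exact hT2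
  have h4 : ‖ψ n z‖ ≤ ‖ψ n (T e)‖ + ‖ψ n (T e - z)‖ := by
    have : ψ n z = ψ n (T e) - ψ n (T e - z) := by rw [← map_sub]; congr 1; abel
    rw [this]; exact norm_sub_le _ _
  rw [← Real.norm_eq_abs] at h2
  linarith

/-- no null orbits in the space -/
lemma not_nullVec {x : E} (F : Finset E) (hF1 : ∀ e ∈ F, ‖e‖ = 1)
    (hF : ∀ η : ℝ, 0 < η → ∀ z : E, ‖z‖ = 1 →
      ∃ e ∈ F, ∃ T : E ≃ₗᵢ[ℝ] E, ‖T x - x‖ ≤ η ∧ ‖T e - z‖ ≤ 1 / 2) : ¬ NullVec E x := by
  rintro ⟨u, η, hu, hη, hnull⟩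
  have h0 : ∀ e : E, ∃ g : StrongDual ℝ E, ‖g‖ ≤ 1 ∧ g e = ‖e‖ := by
    intro e
    obtain ⟨g, hg1, hg2⟩ := exists_dual_vector'' ℝ e
    exact ⟨g, hg1, by simpa using hg2⟩
  choose g hg1 hg2 using h0
  have h1 : ∀ e : E, ∃ N : ℕ, ∀ n : ℕ, N ≤ n → ∀ T : E ≃ₗᵢ[ℝ] E,
      ‖T x - x‖ ≤ η n → |g e (T (u n))| ≤ 1 / 4 := fun e => hnull (g e) (1 / 4) (by norm_num)
  choose N hN using h1
  let n := F.sup N
  obtain ⟨e, he, T, hT1, hT2⟩ := hF (η n) (hη n) (u n) (hu n)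
  have h2 := hN e n (Finset.le_sup he) T.symm (by
    have : T.symm x - x = T.symm (x - T x) := by rw [map_sub, T.symm_apply_apply]
    rw [this, T.symm.norm_map, norm_sub_rev]; exact hT1)
  have h3 : ‖g e (e - T.symm (u n))‖ ≤ 1 / 2 := by
    refine ((g e).le_opNorm _).trans ?_
    have : e - T.symm (u n) = T.symm (T e - u n) := by rw [map_sub, T.symm_apply_apply]
    rw [this, T.symm.norm_map]
    calc ‖g e‖ * ‖T e - u n‖ ≤ 1 * (1 / 2) :=
          mul_le_mul (hg1 e) hT2 (norm_nonneg _) (by norm_num)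
      _ = 1 / 2 := one_mul _
  have h4 : ‖g e e‖ ≤ ‖g e (T.symm (u n))‖ + ‖g e (e - T.symm (u n))‖ := by
    have : g e e = g e (T.symm (u n)) + g e (e - T.symm (u n)) := by
      rw [← map_add]; congr 1; abel
    rw [this]; exact norm_add_le _ _
  rw [hg2 e, hF1 e he, norm_one] at h4
  rw [← Real.norm_eq_abs] at h2
  linarith

end Pool.TH578.Rot
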